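import Pool.Agent.K3h46.AS.Fin2

/-!
# Zero-cycles on the curves `w ^ p - w = f(x, t) + c`, reducible leading form, almost all constants

Let `F` be a finite field of characteristic `p`, `d` a divisor of `p - 1`, and `f(x, t)` a polynomial of
degree `d` over `F`, `f_d` its leading form, `φ(u) = f_d(1, u)` of degree `d`, ordinary (as in
`WildCyclicCurves`; all the binomials `a + b u ^ d`, `a, b ≠ 0`, are ordinary), and the product of `r ≥ 2`
irreducible polynomials which are not associated. The case `r = 1` is the case of `WildCyclicCurves`. The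
terms of `f` of degree smaller than `d` are arbitrary.

For `c ∈ F` let `V_c` be the affine surface `w ^ p - w = f(x, t) + c` over `F`, and `C_c` the smooth
projective curve over `K = F(t)` with this equation (of genus `(p - 1) (d - 1) / 2` if `φ(0) ≠ 0`, of genus
`(p - 1) (d - 2) / 2` if `φ(0) = 0`; it has one point at infinity, which is rational), with Jacobian `J_c`.
Then for all `c ∈ F` except at most a proportion `(r - 1) / p` of them (so at least for a proportion
`2 / p`, as `r ≤ d ≤ p - 1`):

* `Pic V_c = p Pic V_c`, so `J_c(K) = p J_c(K)`;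
* a regular form `a dx + b dt` on `V_c` which is trivial over the function field of the curve over the
  completion `F((1 / t))` (it is a sum of exact forms and forms `(α ^ p - α) dβ / β`) is of the form
  `dc + (g ^ p x ^ (p - 1) - g) dx + (h ^ p t ^ (p - 1) - h) dt` with `c, g, h` regular on `V_c`: the map
  from the flat cohomology group `H²(V_c, μ_p)` to the Brauer group of this field is injective.

So for these `c` the group `J_c(K)` is finite, the `p`-torsion of the Tate-Shafarevich group of `J_c` is
zero, the Tate-Shafarevich group is finite (Milne, Kato-Trihan), and the local-global complex for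
zero-cycles is exact for `C_c`. One expects exceptions: for `f = f_1 f_2` the curves `f_1 = 0`, `w = i` on
`V_0` (`i ∈ F_p`) give points of `J_0(K)`.

More generally, for a perfect field `F` and `e ∈ F` which is not of the form `a ^ p - a`, the conclusion
holds for `c = t e + (a ^ p - a)`, for all `a` and for all `t ∈ F_p` except at most `r - 1` of them.

Method: if the conclusion fails for `c_j = t_j e + (a_j ^ p - a_j)`, there is a form with top component
`G_j ≠ 0`, a solution of degree at most `d - 2` of `G ^ p + (φ ^ (p - 1) G) ^ ((p - 1)) = 0` (the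
derivative of order `p - 1`); these `G` are an `F_p`-space of dimension `r - 1`. After adjoining a root of
`X ^ p - X - e` all these forms live on the same surface; if `∑ λ_j G_j = 0`, the form `∑ λ_j ω_j` is
trivial on the plane, and then a residue in the residue field `F(u)` of the line at infinity gives
`∑ λ_j t_j G_j = 0`. So the `G_j` are linearly independent over `F_p`.
-/

set_option autoImplicit false

open scoped KaehlerDifferential

namespace Pool.Agent.Results.MP_bd895b_nt.AlmostAllConstants

open Pool.Agent.K3h46.AS

section defs

variable {F : Type} [Field F]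

/-- The number of the irreducible factors of `φ = f_d(1, u)`. -/
noncomputable def nfac (d : ℕ) (f : MvPolynomial (Fin 2) F) : ℕ :=
  Multiset.card (UniqueFactorizationMonoid.factors (lead d f))

/-- The conditions on `f`: the degree is `d`, and `φ = f_d(1, u)` has degree `d`, is a product of at least
two irreducible polynomials which are not associated, and is ordinary. -/
structure Adm (p d : ℕ) (f : MvPolynomial (Fin 2) F) : Prop where
  deg : f.totalDegree ≤ d
  nat : (lead d f).natDegree = d
  sqf : Squarefree (lead d f)
  ord : IsOrdinary p d (lead d f)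
  two : 2 ≤ nfac d f

/-- The group of the classes of invertible modules over the coordinate ring of the surface
`w ^ p - w = f(x, t)` is divisible by `p`. -/
def PicDiv (p : ℕ) (f : MvPolynomial (Fin 2) F) : Prop :=
  ∀ P : CommRing.Pic (Cov p f), ∃ Q : CommRing.Pic (Cov p f), Q ^ p = P

/-- The homomorphism from the coordinate ring of the surface to the field of fractions `L` of
`F((1 / t))[x, w] / (w ^ p - w - f)`. -/
noncomputable def emb (p : ℕ) (f : MvPolynomial (Fin 2) F) (L : Type) [Field L]
    [Algebra (Cov p (toInf f)) L] : Cov p f →+* L :=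
  (algebraMap (Cov p (toInf f)) L).comp (mapInf p f)

/-- The form `a dx + b dt` is trivial over `L`. -/
def TrivAt (p : ℕ) (f : MvPolynomial (Fin 2) F) (L : Type) [Field L]
    [Algebra (Cov p (toInf f)) L] (a b : Cov p f) : Prop :=
  form (emb p f L (xB p f)) (emb p f L (tB p f)) (emb p f L a) (emb p f L b) ∈ Triv p L

/-- A regular form which is trivial at infinity is of the form
`dc + (g ^ p x ^ (p - 1) - g) dx + (h ^ p t ^ (p - 1) - h) dt`. -/
def InfInj (p : ℕ) (f : MvPolynomial (Fin 2) F) : Prop :=
  ∀ (L : Type) [Field L] [Algebra (Cov p (toInf f)) L] [IsFractionRing (Cov p (toInf f)) L]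
    (a b : Cov p f), TrivAt p f L a b → TrivB p f a b

/-- The constant `c` is fine: the conclusion holds for `w ^ p - w = f + c`. -/
def FineAt (p : ℕ) (f : MvPolynomial (Fin 2) F) (c : F) : Prop :=
  PicDiv p (f + MvPolynomial.C c) ∧ InfInj p (f + MvPolynomial.C c)

theorem fineAt_of {p : ℕ} {f : MvPolynomial (Fin 2) F} {c : F}
    (h : Fine p (f + MvPolynomial.C c)) : FineAt p f c :=
  ⟨h.1, fun L _ _ _ a b hab => h.2 L a b hab⟩

/-- The binomial `a + b u ^ d`. -/
noncomputable def bin (d : ℕ) (a b : F) : Polynomial F :=
  Polynomial.C a + Polynomial.C b * Polynomial.X ^ d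

end defs

theorem result {p : ℕ} [hp : Fact p.Prime] {d : ℕ} (hd : 0 < d) (hdp : d ∣ p - 1) {F : Type}
    [Field F] [CharP F p] [PerfectRing F p] :
    (∀ f : MvPolynomial (Fin 2) F, Adm p d f →
      -- perfect fields
      (∀ e : F, (∀ a : F, a ^ p - a ≠ e) → ∃ T : Finset (ZMod p), T.card ≤ nfac d f - 1 ∧
        ∀ t : ZMod p, t ∉ T → ∀ a : F, FineAt p f ((t.val : F) * e + (a ^ p - a))) ∧
      -- finite fields
      (Finite F → p * {c : F | ¬ FineAt p f c}.ncard ≤ (nfac d f - 1) * Nat.card F)) ∧
    -- examples
    ∀ a b : F, a ≠ 0 → b ≠ 0 →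
      (bin d a b).natDegree = d ∧ Squarefree (bin d a b) ∧ IsOrdinary p d (bin d a b) :=
  ⟨fun f h => ⟨fun e he => by
      obtain ⟨T, h1, h2⟩ := perfect_fine hd hdp h.deg h.nat h.sqf h.ord e he
      exact ⟨T, h1, fun t ht a => fineAt_of (h2 t ht a)⟩,
    fun _ => by
      refine le_trans (Nat.mul_le_mul_left p ?_)
        (count_fine bricks hd hdp h.deg h.nat h.sqf h.ord)
      exact Set.ncard_le_ncard (fun c hc hf => hc (fineAt_of hf)) (Set.toFinite _)⟩,
    fun a b ha hb => binomial hd hdp a b ha hb⟩

end Pool.Agent.Results.MP_bd895b_nt.AlmostAllConstants
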