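import Pool.Agent.K3h46.AS.Main3

/-!
# Zero-cycles on the curves `w ^ p - w = a x ^ M + b t ^ L + …`, all terms below the segment

Let `F` be a perfect (for instance finite) field of characteristic `p`, `M, L > 0` with
`lcm(M, L) ∣ p - 1`, and `f = a x ^ M + b t ^ L + ∑ c_ij x ^ i t ^ j` over `F`, where `a, b ≠ 0` and the sum is over
the points `(i, j)` strictly below the segment from `(M, 0)` to `(0, L)`: `i / M + j / L < 1`. The
coefficients `c_ij` are ARBITRARY. Suppose that `M` and `L` are coprime, or that
`a + b u ^ gcd(M, L)` is irreducible over `F`.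

Let `V` be the affine surface `w ^ p - w = f(x, t)` over `F`, `K = F(t)`, `K_∞ = F((1 / t))`, and `C` the
smooth projective curve over `K` with this equation, of genus `(p - 1) (M - 1) / 2`. It has one point
at infinity, which is rational, so `Pic V` is the group `J(K)` of the rational points of the Jacobian
`J` of `C`.

* `Pic V = p Pic V`, so `J(K) = p J(K)`.
* Let `a dx + b dt` be a regular differential form on `V` which is trivial over the function field `E`
  of the curve over `K_∞`: it is a sum of an exact form and of forms `(α ^ p - α) dβ / β`, `α, β ∈ E`.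
  Then there are regular functions `c, g, h` on `V` with
  `a dx + b dt = dc + (g ^ p x ^ (p - 1) - g) dx + (h ^ p t ^ (p - 1) - h) dt`: the map from the flat
  cohomology group `H²(V, μ_p)` to the Brauer group of `E` is injective.

As in `WildCyclicCurves` (which treats the case of a homogeneous leading form, with an irreducible
and ordinary leading form) this shows for finite `F` that `J(K)` is finite and that the `p`-torsion of the
Tate-Shafarevich group of `J` is zero, so that the Tate-Shafarevich group is finite (Milne,
Kato-Trihan) and the local-global complex for zero-cycles is exact for `C`. For `M ≠ L` the top part of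
`f` is not homogeneous; it is quasi-homogeneous, and no condition of ordinarity is needed.

Method: let `g = gcd(M, L)`, `M = g m`, `L = g n`, `α n - β m = 1`, `x = u ^ β z ^ n`, `t = u ^ α z ^ m`. The
divisor at infinity of weight `(n, m)` has the residue field `F(u)` and the local parameter `1 / z`, and
`f = u ^ (β M) (a + b u ^ g) z ^ (g m n) + …`. The Swan filtration at the point over this divisor of the
classes given by forms on the plane is computed with the Cartier operator. The `(p - 1)`-th
derivatives that occur are computed term by term; the coefficients are binomial coefficients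
`binom(N (p - 1) / (g m n), m J (p - 1) / (g m n))` with `N < g m n`, which are not zero modulo `p`.
-/

set_option autoImplicit false

open scoped KaehlerDifferential

namespace Pool.Agent.Results.MP_bd895b_nt.BelowTheSegment

open Pool.Agent.K3h46.AS

section defs

variable {F : Type} [Field F]

/-- `f = a x ^ M + b t ^ L +` terms below the segment, `a, b ≠ 0`, and `M, L` are coprime or
`a + b u ^ gcd(M, L)` is irreducible. -/
structure Below (M L : ℕ) (a b : F) (f : MvPolynomial (Fin 2) F) : Prop where
  ha : a ≠ 0
  hb : b ≠ 0
  xM : f.coeff (Finsupp.single 0 M) = a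
  tL : f.coeff (Finsupp.single 1 L) = b
  below : ∀ s ∈ f.support, s ≠ Finsupp.single 0 M → s ≠ Finsupp.single 1 L →
    L * s 0 + M * s 1 < M * L
  irr : Nat.gcd M L = 1 ∨
    Irreducible (Polynomial.C a + Polynomial.C b * Polynomial.X ^ Nat.gcd M L)

/-- The group of the classes of invertible modules over the coordinate ring of the surface
`w ^ p - w = f(x, t)` is divisible by `p`. -/
def PicDiv (p : ℕ) (f : MvPolynomial (Fin 2) F) : Prop :=
  ∀ P : CommRing.Pic (Cov p f), ∃ Q : CommRing.Pic (Cov p f), Q ^ p = P

/-- The homomorphism from the coordinate ring of the surface to the field of fractions `E` of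
`F((1 / t))[x, w] / (w ^ p - w - f)`. -/
noncomputable def emb (p : ℕ) (f : MvPolynomial (Fin 2) F) (E : Type) [Field E]
    [Algebra (Cov p (toInf f)) E] : Cov p f →+* E :=
  (algebraMap (Cov p (toInf f)) E).comp (mapInf p f)

/-- The form `a dx + b dt` is trivial over `E`. -/
def TrivAt (p : ℕ) (f : MvPolynomial (Fin 2) F) (E : Type) [Field E]
    [Algebra (Cov p (toInf f)) E] (a b : Cov p f) : Prop :=
  form (emb p f E (xB p f)) (emb p f E (tB p f)) (emb p f E a) (emb p f E b) ∈ Triv p E

/-- A regular form which is trivial at infinity is of the form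
`dc + (g ^ p x ^ (p - 1) - g) dx + (h ^ p t ^ (p - 1) - h) dt`. -/
def InfInj (p : ℕ) (f : MvPolynomial (Fin 2) F) : Prop :=
  ∀ (E : Type) [Field E] [Algebra (Cov p (toInf f)) E] [IsFractionRing (Cov p (toInf f)) E]
    (a b : Cov p f), TrivAt p f E a b → TrivB p f a b

end defs

theorem result {p : ℕ} [hp : Fact p.Prime] {M L : ℕ} (hM : 0 < M) (hL : 0 < L)
    (hdvd : Nat.lcm M L ∣ p - 1) {F : Type} [Field F] [CharP F p] [PerfectRing F p] {a b : F}
    {f : MvPolynomial (Fin 2) F} (hf : Below M L a b f) : PicDiv p f ∧ InfInj p f := by
  have h := fine3 hM hL hdvd f (by rw [hf.xM]; exact hf.ha) (by rw [hf.tL]; exact hf.hb) hf.below (by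
    rw [hf.xM, hf.tL]
    rcases hf.irr with h1 | h1
    · rw [h1, pow_one, add_comm]
      exact Polynomial.irreducible_of_degree_eq_one (Polynomial.degree_linear hf.hb)
    · exact h1)
  exact ⟨h.1, fun E _ _ _ a b hab => h.2 E a b hab⟩

end Pool.Agent.Results.MP_bd895b_nt.BelowTheSegment
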