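import Pool.Agent.K3h46.AS.Main
import Pool.Agent.K3h4.AS.Pic

/-!
# Zero-cycles on the curves `w ^ p - w = f(x, t)` over `F(t)`, `p` the characteristic

Let `F` be a perfect (for instance finite) field of characteristic `p`, `d` a divisor of `p - 1`, and
`f(x, t)` a polynomial of degree `d` over `F` whose leading form `f_d` is irreducible and ordinary:
`φ(u) = f_d(1, u)` is irreducible of degree `d`, and for `m < d` there is no polynomial `G ≠ 0` of degree
at most `m - 2` such that the derivative of order `p - 1` of `φ ^ (m (p - 1) / d) G` is zero (a condition
on `f_d` only: a curve `y ^ d = f_d(x, t)` has an injective Cartier operator on certain differentials).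
There is NO condition on the coefficients of the terms of `f` of degree smaller than `d`, and all the
binomials `φ = a + b u ^ d`, `a, b ≠ 0`, are ordinary.

Let `V` be the affine surface `w ^ p - w = f(x, t)` over `F`, `K = F(t)`, `K_∞ = F((1 / t))`, and `C` the
smooth projective curve over `K` with this equation, of genus `(p - 1) (d - 1) / 2`. It has one point
at infinity, which is rational, so `Pic V` is the group `J(K)` of the rational points of the Jacobian
`J` of `C`.

* `Pic V = p Pic V`, so `J(K) = p J(K)`.
* Let `a dx + b dt` be a regular differential form on `V` (the forms `dx`, `dt` are a basis) which is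
  trivial over the function field `L` of the curve over `K_∞`: it is a sum of an exact form and of
  forms `(α ^ p - α) dβ / β`, `α, β ∈ L`. Then there are regular functions `c, g, h` on `V` with
  `a dx + b dt = dc + (g ^ p x ^ (p - 1) - g) dx + (h ^ p t ^ (p - 1) - h) dt`.

Meaning of the second statement: the differential forms of a field `E` of characteristic `p` modulo
the trivial forms are the `p`-torsion of the Brauer group of `E` (Jacobson, Kato; the class of
`α dβ / β` is the cyclic algebra `[α, β)`), and the regular forms on `V` modulo the forms
`dc + (g ^ p x ^ (p - 1) - g) dx + (h ^ p t ^ (p - 1) - h) dt` (these are the forms `ω - C ω`, `ω` closed,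
`C` the Cartier operator) are the flat cohomology group `H²(V, μ_p)`, which is an extension of the
`p`-torsion of `Br V` by `Pic V / p`. So the statement says that `H²(V, μ_p) → Br(L)` is injective. Since
the `p`-torsion of the Tate-Shafarevich group of `J` over `K` (for finite `F`) consists of classes of
`Br V` which are zero over the completions of `K`, in particular over `K_∞`, it is zero. Hence for
finite `F` the rank of `J(K)` is zero and the Tate-Shafarevich group is finite (Milne, Kato-Trihan), and
the local-global complex for zero-cycles is exact for `C`.

Method: a class which is trivial at infinity is given by a polynomial form on the plane, up to a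
unipotent filtration (powers of `w`); the Swan filtration at the line at infinity of its restriction
to the wildly ramified extension `w ^ p - w = f` of the complete field `F(u)((1 / x))` is computed with
the Cartier operator, and its top component must be closed.
-/

set_option autoImplicit false

open scoped KaehlerDifferential

namespace Pool.Agent.Results.MP_bd895b_nt.WildCyclicCurves

open Pool.Agent.K3h46.AS

theorem result {p : ℕ} [hp : Fact p.Prime] {d : ℕ} (hd : 0 < d) (hdp : d ∣ p - 1) {F : Type}
    [Field F] [CharP F p] [PerfectRing F p] :
    (∀ f : MvPolynomial (Fin 2) F, Good p d f →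
      (∀ P : CommRing.Pic (Cov p f), ∃ Q : CommRing.Pic (Cov p f), Q ^ p = P) ∧
      ∀ (L : Type) [Field L] [Algebra (Cov p (toInf f)) L] [IsFractionRing (Cov p (toInf f)) L]
        (a b : Cov p f),
        form (algebraMap (Cov p (toInf f)) L (mapInf p f (xB p f)))
          (algebraMap (Cov p (toInf f)) L (mapInf p f (tB p f)))
          (algebraMap (Cov p (toInf f)) L (mapInf p f a))
          (algebraMap (Cov p (toInf f)) L (mapInf p f b)) ∈ Triv p L → TrivB p f a b) ∧
    ∀ a b : F, a ≠ 0 → b ≠ 0 →
      IsOrdinary p d (Polynomial.C a + Polynomial.C b * Polynomial.X ^ d) :=
  ⟨fun _ hf => ⟨picOf Pool.Agent.K3h4.AS.t_PIC' hd hdp hf, fun L _ _ _ a b h => br hd hdp hf L a b h⟩,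
    fun a b ha hb => Pool.Agent.K3h60.AS.t_EXA p d F a b hd hdp ha hb⟩

end Pool.Agent.Results.MP_bd895b_nt.WildCyclicCurves
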