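import Pool.Agent.K3h48.BM.Cycles

/-!
# Zero-cycles on everywhere locally soluble superelliptic curves of every exponent

Let `ℓ` be any prime number, let `p ≠ q` be primes and let `χ`, `ψ` be surjective characters
`(ℤ/p)^* → ℤ/ℓ`, `(ℤ/q)^* → ℤ/ℓ` such that `q` and `-1` are `ℓ`-th powers modulo `p` and `p` and
`-1` are `ℓ`-th powers modulo `q`.  The characters `χ` and `χ^j ψ` cut out `ℓ + 1` cyclic fields
`K_i` of degree `ℓ` in `ℚ(ζ_{pq})`.  Let `k` be a number field, let `G_i` be finite nonempty sets of
monic irreducible nonlinear polynomials over `k` with a root in `k ⊗ K_i = k[x]/(P_i)`, let `M_i` be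
the product of the elements of `G_i` and `f` the product of the `M_i`.  Let `a ∈ k^*` be such that
for some `m ≠ 0` the sum `∑ v_r(N a) χ(r)` over the primes `r` with `ψ(r) = m χ(r)` is not zero
modulo `ℓ`, where `N` is the norm from `k` to `ℚ`.

Let `C` be the smooth projective model of `a y^n = f(x)`, `ℓ ∣ n`; it has points over all completions
of all number fields that contain `k`.  The divisor of the function `M_i` on `C` is divisible by
`ℓ`, so the class of the cyclic algebra `(M_i, χ)` lies in `Br(C)`.  We prove for every finite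
extension `L` of `k` that an adelic zero-cycle on `C` over `L` with degrees congruent to `d` modulo
`ℓ` at all finite places has the pairing `d [L : k] / ℓ` times the above sum with the class with the
index of `χ^{-m} ψ`.

Let `L` be of degree prime to `ℓ` over `k`, for instance `L = k`.  Then for every integer `d` the
following are equivalent: there is a zero-cycle of degree `d` on `C` over `L`; there is an adelic
zero-cycle of degree `d` on `C` over `L` that is orthogonal to the classes `(M_i, χ)`; there is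
such an adelic zero-cycle with degrees congruent to `d` modulo `ℓ`; `d` is divisible by `ℓ`.  So
the Brauer-Manin obstruction to the existence of a zero-cycle of degree `d` is the only one, for all
`d`, and the elements of the kernel of the second map of the local-global complex for `C` have the
same degrees, all multiples of `ℓ`, as the elements of the image of the first one.  Nothing is
assumed on the Tate-Shafarevich group of the Jacobian, and the genus is arbitrarily large.

The completions of a number field `L` above a place of `ℚ` with the completion `K` are the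
quotients of `K ⊗ L` by its maximal ideals.  The local invariant of the cyclic algebra `(b, χ)` over
a finite extension `E` of `ℚ_r` is the invariant of `(c, χ)` over `ℚ_r` for the norm `c` of `b`, and
this is `v_r(c) χ(r)` for `r ≠ p` and `-χ(u)`, `c = p^v u`, for `r = p`; at the archimedean places
the invariant is zero, because `χ(-1) = 0`.
-/

set_option autoImplicit false

open Polynomial

open scoped TensorProduct

namespace Pool.Agent.Results.MP_bd895b_nt.ZeroCyclesOnSuperelliptic

universe u v

section arithmetic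

variable {ℓ p q : ℕ} [Fact p.Prime] [Fact q.Prime]

/-- The character `χ` as a function on `ℤ/p` with values in the additive group `ℤ/ℓ`, extended by
`0` to zero. -/
noncomputable def index (χ : (ZMod p)ˣ →* Multiplicative (ZMod ℓ)) (x : ZMod p) : ZMod ℓ :=
  if h : x = 0 then 0 else (χ (Units.mk0 x h)).toAdd

/-- The characters `χ` modulo `p` and `ψ` modulo `q` are surjective, `p ≠ q`, the numbers `q` and
`-1` are `ℓ`-th powers modulo `p`, and `p` and `-1` are `ℓ`-th powers modulo `q`. -/
structure Admissible (χ : (ZMod p)ˣ →* Multiplicative (ZMod ℓ))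
    (ψ : (ZMod q)ˣ →* Multiplicative (ZMod ℓ)) : Prop where
  ne : p ≠ q
  surjective_left : Function.Surjective χ
  surjective_right : Function.Surjective ψ
  q_power : ∃ u : ZMod p, u ^ ℓ = q
  p_power : ∃ u : ZMod q, u ^ ℓ = p
  neg_power_left : ∃ u : ZMod p, u ^ ℓ = -1
  neg_power_right : ∃ u : ZMod q, u ^ ℓ = -1

/-- `χ(r)` if `ψ(r) = m χ(r)`, and `0` otherwise -/
noncomputable def weight (χ : (ZMod p)ˣ →* Multiplicative (ZMod ℓ))
    (ψ : (ZMod q)ˣ →* Multiplicative (ZMod ℓ)) (m : ZMod ℓ) (r : ℕ) : ZMod ℓ :=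
  if index ψ (r : ZMod q) = m * index χ (r : ZMod p) then index χ (r : ZMod p) else 0

/-- `∑ v_r(b) χ(r)` over all primes `r` with `ψ(r) = m χ(r)`, as an element of `ℤ/ℓ` -/
noncomputable def invariant (χ : (ZMod p)ˣ →* Multiplicative (ZMod ℓ))
    (ψ : (ZMod q)ˣ →* Multiplicative (ZMod ℓ)) (m : ZMod ℓ) (b : ℚ) : ZMod ℓ :=
  ∑ r ∈ (b.num.natAbs * b.den).primeFactors, (padicValRat r b : ZMod ℓ) * weight χ ψ m r

/-- One of the invariants with `m ≠ 0` of the norm of `a` from `k` to `ℚ` is not zero. -/
def Obstructed (χ : (ZMod p)ˣ →* Multiplicative (ZMod ℓ))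
    (ψ : (ZMod q)ˣ →* Multiplicative (ZMod ℓ)) {k : Type u} [Field k] [NumberField k] (a : k) :
    Prop :=
  ∃ m : ZMod ℓ, m ≠ 0 ∧ invariant χ ψ m (Algebra.norm ℚ a) ≠ 0

/-- The coefficients `(s, t)` of the characters `χ^s ψ^t`: the characters are `χ` and `χ^j ψ` for
`j ∈ ℤ/ℓ`. -/
def coefficients : Option (ZMod ℓ) → ZMod ℓ × ZMod ℓ
  | none => (1, 0)
  | some j => (j, 1)

/-- The automorphism `ζ ↦ ζ^n` of `ℚ(ζ_{pq})` fixes `θ` if and only if `χ(n)^s ψ(n)^t = 1`.  So `θ`
generates the fixed field of the kernel of the character `χ^s ψ^t`. -/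
def IsGenerator (χ : (ZMod p)ˣ →* Multiplicative (ZMod ℓ))
    (ψ : (ZMod q)ˣ →* Multiplicative (ZMod ℓ)) (s t : ZMod ℓ) (θ : CyclotomicField (p * q) ℚ) :
    Prop :=
  ∀ (σ : CyclotomicField (p * q) ℚ ≃ₐ[ℚ] CyclotomicField (p * q) ℚ) (n : ℕ),
    (∀ ζ, ζ ^ (p * q) = 1 → σ ζ = ζ ^ n) →
    (σ θ = θ ↔ s * index χ (n : ZMod p) + t * index ψ (n : ZMod q) = 0)

end arithmetic

/-- The polynomial `g` over `k` is monic, irreducible and not linear, and it has a root in
`k[x]/(P)`. -/
structure IsFactor {k : Type u} [Field k] [CharZero k] (P : ℚ[X]) (g : k[X]) : Prop where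
  monic : g.Monic
  irreducible : Irreducible g
  not_linear : g.natDegree ≠ 1
  root : ∃ r : AdjoinRoot (P.map (algebraMap ℚ k)), aeval r g = 0

section places

/-- The algebra `ℚ_r ⊗ L`, which is the product of the completions of `L` at the places above
`r`. -/
abbrev LocalAlgebra (r : ℕ) [Fact r.Prime] (L : Type u) [Field L] [NumberField L] : Type u :=
  ℚ_[r] ⊗[ℚ] L

variable (r : ℕ) [Fact r.Prime] (L : Type u) [Field L] [NumberField L]

/-- The map from `L` to `ℚ_r ⊗ L`. -/
noncomputable def toLocal : L →+* LocalAlgebra r L :=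
  (Algebra.TensorProduct.includeRight : L →ₐ[ℚ] ℚ_[r] ⊗[ℚ] L).toRingHom

variable {r L} in
/-- The norm from a residue algebra of `ℚ_r ⊗ L` to the field `ℚ_r`. -/
noncomputable def normTo (I : Ideal (LocalAlgebra r L)) (b : LocalAlgebra r L ⧸ I) : ℚ_[r] :=
  Algebra.norm ℚ_[r] b

/-- The finite places of the number field `L`: a prime number `r` and a maximal ideal of
`ℚ_r ⊗ L`. -/
structure FinitePlace where
  /-- the prime number `r` -/
  prime : ℕ
  /-- `r` is a prime number -/
  fact : Fact prime.Prime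
  /-- the ideal of `ℚ_r ⊗ L` -/
  ideal : Ideal (LocalAlgebra prime L)
  /-- the ideal is maximal -/
  maximal : ideal.IsMaximal

attribute [instance] FinitePlace.fact FinitePlace.maximal

variable {L}

/-- The completion of `L` at a finite place: the residue field of the maximal ideal. -/
def Completion (v : FinitePlace L) : Type u := LocalAlgebra v.prime L ⧸ v.ideal

noncomputable instance fieldCompletion (v : FinitePlace L) : Field (Completion v) :=
  Ideal.Quotient.field v.ideal

/-- The embedding of `L` in its completion at a finite place. -/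
noncomputable def embedding (v : FinitePlace L) : L →+* Completion v :=
  (Ideal.Quotient.mk v.ideal).comp (toLocal v.prime L)

variable (L) in
/-- The algebra `ℝ ⊗ L`, which is the product of the completions of `L` at the archimedean
places. -/
abbrev RealAlgebra : Type u := ℝ ⊗[ℚ] L

variable (L) in
/-- The map from `L` to `ℝ ⊗ L`. -/
noncomputable def toReal : L →+* RealAlgebra L :=
  (Algebra.TensorProduct.includeRight : L →ₐ[ℚ] ℝ ⊗[ℚ] L).toRingHom

/-- The completion of `L` at an archimedean place, given by a maximal ideal of `ℝ ⊗ L`. -/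
def RealCompletion (v : MaximalSpectrum (RealAlgebra L)) : Type u := RealAlgebra L ⧸ v.asIdeal

noncomputable instance fieldRealCompletion (v : MaximalSpectrum (RealAlgebra L)) :
    Field (RealCompletion v) :=
  Ideal.Quotient.field v.asIdeal

/-- The embedding of `L` in its completion at an archimedean place. -/
noncomputable def realEmbedding (v : MaximalSpectrum (RealAlgebra L)) : L →+* RealCompletion v :=
  (Ideal.Quotient.mk v.asIdeal).comp (toReal L)

end places

section points

variable {k : Type u} [Field k]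

/-- The points over the field `E`, an extension of `k` through `ι`, of the smooth projective model
of the curve `a y^n = f(x)`, `f` monic and separable: the affine points and the points at infinity,
which correspond to the `d`-th roots of `1 / a`, where `d` is the greatest common divisor of `n` and
the degree of `f`. -/
inductive Point (a : k) (f : k[X]) (n : ℕ) {E : Type v} [Field E] (ι : k →+* E) : Type v
  | affine (x y : E) (h : ι a * y ^ n = eval₂ ι x f) : Point a f n ι
  | infinite (z : E) (h : ι a * z ^ Nat.gcd n f.natDegree = 1) : Point a f n ι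

/-- The value of `M_i`, the product of the elements of `G_i`, at a point of the curve
`a y^n = ∏ M_i(x)`, up to `ℓ`-th powers, if `ℓ ∣ n`.  If `M_i` vanishes, then this is the value of
`a / ∏ M_j`, `j ≠ i`; the quotient of these functions is the `n`-th power of `y`.  At infinity the
value is `1`, since `M_i` is monic and its degree is divisible by `ℓ`. -/
noncomputable def value {I : Type} [Fintype I] {a : k} {f : k[X]} {n : ℕ}
    {E : Type v} [Field E] {ι : k →+* E} (G : I → Finset k[X]) (i : I) : Point a f n ι → E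
  | .affine x _ _ => open scoped Classical in
    if ∏ g ∈ G i, eval₂ ι x g = 0 then ι a / ∏ j ∈ Finset.univ.erase i, ∏ g ∈ G j, eval₂ ι x g
    else ∏ g ∈ G i, eval₂ ι x g
  | .infinite _ _ => 1

/-- A point of the smooth projective model of `a y^n = f(x)` over a finite extension of `F`. -/
structure FinitePoint (a : k) (f : k[X]) (n : ℕ) {F : Type u} [Field F] (ι : k →+* F) :
    Type (u + 1) where
  /-- the finite extension `E` of `F` -/
  extension : Type u
  /-- `E` is a field -/
  field : Field extension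
  /-- `E` is an extension of `F` -/
  algebra : Algebra F extension
  /-- the degree of `E` over `F` is finite -/
  finite : FiniteDimensional F extension
  /-- the point over `E` -/
  point : Point a f n ((algebraMap F extension).comp ι)

attribute [instance] FinitePoint.field FinitePoint.algebra FinitePoint.finite

/-- The zero-cycles on the smooth projective model of `a y^n = f(x)` over `F`: the formal sums of
points over finite extensions.  Such a point stands for its direct image, so the closed points are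
given by the points over their residue fields. -/
abbrev Cycle (a : k) (f : k[X]) (n : ℕ) {F : Type u} [Field F] (ι : k →+* F) : Type (u + 1) :=
  FinitePoint a f n ι →₀ ℤ

/-- The degree of a zero-cycle. -/
noncomputable def degree {a : k} {f : k[X]} {n : ℕ} {F : Type u} [Field F] {ι : k →+* F}
    (z : Cycle a f n ι) : ℤ :=
  z.sum fun P c => c * Module.finrank F P.extension

/-- The adelic zero-cycles over the number field `L`, an extension of `k`: a zero-cycle over each
completion of `L`. -/
structure AdelicCycle (a : k) (f : k[X]) (n : ℕ) (L : Type u) [Field L] [NumberField L]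
    [Algebra k L] : Type (u + 1) where
  /-- the zero-cycles over the completions at the finite places -/
  finite : ∀ v : FinitePlace L, Cycle a f n ((embedding v).comp (algebraMap k L))
  /-- the zero-cycles over the completions at the archimedean places -/
  archimedean : ∀ v : MaximalSpectrum (RealAlgebra L),
    Cycle a f n ((realEmbedding v).comp (algebraMap k L))

/-- The adelic zero-cycle has degree `d` at all places. -/
def HasDegree {a : k} {f : k[X]} {n : ℕ} {L : Type u} [Field L] [NumberField L] [Algebra k L]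
    (Z : AdelicCycle a f n L) (d : ℤ) : Prop :=
  (∀ v : FinitePlace L, degree (Z.finite v) = d) ∧
    ∀ v : MaximalSpectrum (RealAlgebra L), degree (Z.archimedean v) = d

/-- The degrees of the adelic zero-cycle at the finite places are congruent to `d` modulo `ℓ`. -/
def HasDegreeMod (ℓ : ℕ) {a : k} {f : k[X]} {n : ℕ} {L : Type u} [Field L] [NumberField L]
    [Algebra k L] (Z : AdelicCycle a f n L) (d : ℤ) : Prop :=
  ∀ v : FinitePlace L, (ℓ : ℤ) ∣ degree (Z.finite v) - d

end points

section invariants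

variable {ℓ p : ℕ} [Fact p.Prime]

/-- The residue class of `c r^{-v}`, where `v` is the valuation of `c ∈ ℚ_r`. -/
noncomputable def leading {r : ℕ} [Fact r.Prime] (c : ℚ_[r]) : ZMod r :=
  if h : ‖c * (r : ℚ_[r]) ^ (-c.valuation)‖ ≤ 1 then PadicInt.toZMod ⟨_, h⟩ else 0

/-- The local invariant of the cyclic algebra `(c, χ)` over `ℚ_r`, multiplied by `ℓ`: it is
`v_r(c) χ(r)` if `r ≠ p` and `-χ(u)` if `r = p` and `c = p^v u`. -/
noncomputable def localInvariant (χ : (ZMod p)ˣ →* Multiplicative (ZMod ℓ)) {r : ℕ}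
    [Fact r.Prime] (c : ℚ_[r]) : ZMod ℓ :=
  if r = p then - index χ ((leading c).val : ZMod p)
  else ((c.valuation : ℤ) : ZMod ℓ) * index χ (r : ZMod p)

/-- The local invariant, multiplied by `ℓ`, of the class `(M_i, χ)` at a point over a finite
extension of the completion of `L` at the place `v`. -/
noncomputable def invariantAt (χ : (ZMod p)ˣ →* Multiplicative (ZMod ℓ)) {k : Type u} [Field k]
    {I : Type} [Fintype I] {a : k} {f : k[X]} {n : ℕ} {L : Type u} [Field L] [NumberField L]
    [Algebra k L] (G : I → Finset k[X]) (i : I) (v : FinitePlace L)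
    (P : FinitePoint a f n ((embedding v).comp (algebraMap k L))) : ZMod ℓ :=
  localInvariant χ (normTo v.ideal (Algebra.norm (Completion v) (value G i P.point)))

/-- The local invariant at `v`, multiplied by `ℓ`, of the class `(M_i, χ)` at the adelic zero-cycle
`Z`. -/
noncomputable def localTerm (χ : (ZMod p)ˣ →* Multiplicative (ZMod ℓ)) {k : Type u} [Field k]
    {I : Type} [Fintype I] {a : k} {f : k[X]} {n : ℕ} {L : Type u} [Field L] [NumberField L]
    [Algebra k L] (G : I → Finset k[X]) (i : I) (Z : AdelicCycle a f n L) (v : FinitePlace L) :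
    ZMod ℓ :=
  (Z.finite v).sum fun P c => (c : ZMod ℓ) * invariantAt χ G i v P

/-- The sum of all local invariants, multiplied by `ℓ`, of the class `(M_i, χ)` at the adelic
zero-cycle `Z`. -/
noncomputable def pairing (χ : (ZMod p)ˣ →* Multiplicative (ZMod ℓ)) {k : Type u} [Field k]
    {I : Type} [Fintype I] {a : k} {f : k[X]} {n : ℕ} {L : Type u} [Field L] [NumberField L]
    [Algebra k L] (G : I → Finset k[X]) (i : I) (Z : AdelicCycle a f n L) : ZMod ℓ :=
  ∑ᶠ v : FinitePlace L, localTerm χ G i Z v

end invariants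

section statements

variable {ℓ p q : ℕ} [Fact p.Prime] [Fact q.Prime] {k : Type u} [Field k] [NumberField k]

/-- The adelic zero-cycle is orthogonal to the classes `(M_i, χ)`, where `i` is the index of one of
the characters `χ^{-m} ψ`, `m ≠ 0`. -/
def Orthogonal (χ : (ZMod p)ˣ →* Multiplicative (ZMod ℓ)) (G : Option (ZMod ℓ) → Finset k[X])
    [NeZero ℓ] {a : k} {f : k[X]} {n : ℕ} {L : Type u} [Field L] [NumberField L] [Algebra k L]
    (Z : AdelicCycle a f n L) : Prop :=
  ∀ m : ZMod ℓ, m ≠ 0 → pairing χ G (some (-m)) Z = 0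

/-- For every adelic zero-cycle over `L` on the smooth projective model of `a y^n = f(x)` with
degrees congruent to `d` modulo `ℓ` and every `m ≠ 0` only finitely many local invariants of the
class `(M_i, χ)`, `i` the index of `χ^{-m} ψ`, are not zero, and their sum is `d [L : k]` times the
invariant of the norm of `a` for `m`. -/
def SumFormula (χ : (ZMod p)ˣ →* Multiplicative (ZMod ℓ))
    (ψ : (ZMod q)ˣ →* Multiplicative (ZMod ℓ)) (G : Option (ZMod ℓ) → Finset k[X]) [NeZero ℓ]
    (a : k) (f : k[X]) (n : ℕ) (L : Type u) [Field L] [NumberField L] [Algebra k L] : Prop :=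
  ∀ (Z : AdelicCycle a f n L) (d : ℤ), HasDegreeMod ℓ Z d → ∀ m : ZMod ℓ, m ≠ 0 →
    {v : FinitePlace L | localTerm χ G (some (-m)) Z v ≠ 0}.Finite ∧
    pairing χ G (some (-m)) Z = d * Module.finrank k L * invariant χ ψ m (Algebra.norm ℚ a)

/-- For every integer `d` the following are equivalent: there is a zero-cycle of degree `d` over `L`
on the smooth projective model of `a y^n = f(x)`; there is an orthogonal adelic zero-cycle of degree
`d`; there is an orthogonal adelic zero-cycle with degrees congruent to `d` modulo `ℓ`; `ℓ`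
divides `d`. -/
def LocalGlobal (χ : (ZMod p)ˣ →* Multiplicative (ZMod ℓ)) (G : Option (ZMod ℓ) → Finset k[X])
    [NeZero ℓ] (a : k) (f : k[X]) (n : ℕ) (L : Type u) [Field L] [NumberField L] [Algebra k L] :
    Prop :=
  ∀ d : ℤ,
    ((∃ z : Cycle a f n (algebraMap k L), degree z = d) ↔ (ℓ : ℤ) ∣ d) ∧
    ((∃ Z : AdelicCycle a f n L, HasDegree Z d ∧ Orthogonal χ G Z) ↔ (ℓ : ℤ) ∣ d) ∧
    ((∃ Z : AdelicCycle a f n L, HasDegreeMod ℓ Z d ∧ Orthogonal χ G Z) ↔ (ℓ : ℤ) ∣ d)

end statements

/-- Let `ℓ`, `p`, `q` be primes, `(χ, ψ)` admissible, `θ_i` generators of the `ℓ + 1` cyclic fields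
of the characters `χ`, `χ^j ψ`, and `P_i` their minimal polynomials.  Let `k` be a number field,
`a ∈ k` obstructed, `G_i` finite nonempty sets of monic irreducible nonlinear polynomials over `k`
with a root in `k[x]/(P_i)`, and `f` the product of all elements of the sets `G_i`.  Let `n > 0` be
divisible by `ℓ`, let `C` be the smooth projective model of `a y^n = f(x)` and let `L` be a finite
extension of `k`.

* `f` is separable of degree `ℓ ∑ |G_i|`;
* `C` has points over all completions of `L`, so there are adelic zero-cycles of all degrees;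
* the sum formula holds for the adelic zero-cycles on `C` over `L`;
* if `[L : k]` is not divisible by `ℓ`, then for every `d` there is a zero-cycle of degree `d` on
  `C` over `L` if and only if there is an adelic one that is orthogonal to the above classes, and
  this is the case if and only if `d` is divisible by `ℓ`.

For every prime `ℓ` there are admissible pairs with arbitrarily large `p`, `q`; there are always
generators `θ_i`; if some `a ∈ k` is obstructed then the polynomials `P_i(x - j)`, `j ∈ k`, can be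
taken as factors; and if `ℓ` does not divide the degree of `k`, then the natural numbers `b` that
are not obstructed over `k` have the density `ℓ^{-(ℓ-1)}`. -/
theorem result :
    (∀ (ℓ p q : ℕ) [Fact ℓ.Prime] [Fact p.Prime] [Fact q.Prime]
        (χ : (ZMod p)ˣ →* Multiplicative (ZMod ℓ)) (ψ : (ZMod q)ˣ →* Multiplicative (ZMod ℓ))
        (θ : Option (ZMod ℓ) → CyclotomicField (p * q) ℚ) (k : Type u) [Field k] [NumberField k]
        (a : k) (G : Option (ZMod ℓ) → Finset k[X]) (n : ℕ) (f : k[X]), Admissible χ ψ →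
      (∀ i, IsGenerator χ ψ (coefficients i).1 (coefficients i).2 (θ i)) → Obstructed χ ψ a →
      (∀ i, (G i).Nonempty) → (∀ i, ∀ g ∈ G i, IsFactor (minpoly ℚ (θ i)) g) → 0 < n → ℓ ∣ n →
      f = ∏ i, ∏ g ∈ G i, g →
      f.Separable ∧ f.natDegree = ℓ * ∑ i, (G i).card ∧
      ∀ (L : Type u) [Field L] [NumberField L] [Algebra k L],
        (∀ v : FinitePlace L, Nonempty (Point a f n ((embedding v).comp (algebraMap k L)))) ∧
        (∀ d : ℤ, ∃ Z : AdelicCycle a f n L, HasDegree Z d) ∧ SumFormula χ ψ G a f n L ∧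
        (¬ ℓ ∣ Module.finrank k L → LocalGlobal χ G a f n L)) ∧
    (∀ (ℓ : ℕ) [Fact ℓ.Prime] (B : ℕ), ∃ (p q : ℕ) (_ : Fact p.Prime) (_ : Fact q.Prime)
      (χ : (ZMod p)ˣ →* Multiplicative (ZMod ℓ)) (ψ : (ZMod q)ˣ →* Multiplicative (ZMod ℓ)),
      B < p ∧ B < q ∧ Admissible χ ψ) ∧
    ∀ (ℓ p q : ℕ) [Fact ℓ.Prime] [Fact p.Prime] [Fact q.Prime]
      (χ : (ZMod p)ˣ →* Multiplicative (ZMod ℓ)) (ψ : (ZMod q)ˣ →* Multiplicative (ZMod ℓ)),
      Admissible χ ψ →
      (∃ θ : Option (ZMod ℓ) → CyclotomicField (p * q) ℚ,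
        ∀ i, IsGenerator χ ψ (coefficients i).1 (coefficients i).2 (θ i)) ∧
      ∀ (k : Type u) [Field k] [NumberField k],
        (∀ (θ : Option (ZMod ℓ) → CyclotomicField (p * q) ℚ) (a : k),
          (∀ i, IsGenerator χ ψ (coefficients i).1 (coefficients i).2 (θ i)) →
          Obstructed χ ψ a → ∀ (i : Option (ZMod ℓ)) (j : k), IsFactor (minpoly ℚ (θ i))
            (((minpoly ℚ (θ i)).map (algebraMap ℚ k)).comp (X - C j))) ∧
        (¬ ℓ ∣ Module.finrank ℚ k →
          Filter.Tendsto (fun N : ℕ =>
            (Nat.card {b : ℕ // 1 ≤ b ∧ b ≤ N ∧ ¬ Obstructed χ ψ (b : k)} : ℝ) / (N : ℝ))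
            Filter.atTop (nhds ((ℓ : ℝ) ^ (ℓ - 1))⁻¹)) := by
  classical
  have hgood : ∀ (ℓ p q : ℕ) [Fact ℓ.Prime] [Fact p.Prime] [Fact q.Prime]
      (χ : (ZMod p)ˣ →* Multiplicative (ZMod ℓ)) (ψ : (ZMod q)ˣ →* Multiplicative (ZMod ℓ)),
      Admissible χ ψ → Pool.Agent.K3h48.MN.Good χ ψ := by
    intro ℓ p q _ _ _ χ ψ h
    exact ⟨h.ne, h.surjective_left, h.surjective_right,
      Pool.Agent.K3h48.MN.ind_pow_zero χ h.q_power, Pool.Agent.K3h48.MN.ind_pow_zero ψ h.p_power,
      Pool.Agent.K3h48.MN.ind_pow_zero χ h.neg_power_left,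
      Pool.Agent.K3h48.MN.ind_pow_zero ψ h.neg_power_right⟩
  refine ⟨?_, ?_, ?_⟩
  · intro ℓ p q _ _ _ χ ψ θ k _ _ a G n f hadm hθ ha hne hGf hn hℓn hf
    subst hf
    have hℓ : ℓ.Prime := Fact.out
    have hG := hgood ℓ p q χ ψ hadm
    have hθ' : ∀ i, Pool.Agent.K3h48.MN.GenBy χ ψ (Pool.Agent.K3h48.MN.cs i).1
        (Pool.Agent.K3h48.MN.cs i).2 (θ i) := by
      intro i
      cases i with
      | none => exact hθ none
      | some j => exact hθ (some j)
    have hGf' : ∀ i, ∀ g ∈ G i, Pool.Agent.K3h48.MN.IsFactor (minpoly ℚ (θ i)) g := fun i g hg =>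
      ⟨(hGf i g hg).monic, (hGf i g hg).irreducible, (hGf i g hg).not_linear,
        (hGf i g hg).root⟩
    have ha' : Pool.Agent.K3h48.MN.Obs χ ψ a := ha
    have ha0 : a ≠ 0 := ha'.ne_zero
    obtain ⟨hsep, hdeg⟩ := Pool.Agent.K3h48.MN.final_separable hG hθ' ha' G hGf'
    refine ⟨hsep, hdeg, ?_⟩
    intro L _ _ _
    have haL : algebraMap k L a ≠ 0 := (_root_.map_ne_zero _).2 ha0
    let e : (Σ r : Nat.Primes, Pool.Agent.K3h48.BM.Place ℚ_[(r : ℕ)] L) ≃ FinitePlace L :=
      { toFun := fun x => ⟨x.1, ⟨x.1.2⟩, x.2.asIdeal, x.2.isMaximal⟩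
        invFun := fun v => ⟨⟨v.prime, v.fact.out⟩, ⟨v.ideal, v.maximal⟩⟩
        left_inv := fun _ => rfl
        right_inv := fun _ => rfl }
    have hpull : ∀ {M : Type} [Zero M] (f : FinitePlace L → M), {x | f (e x) ≠ 0}.Finite →
        {v | f v ≠ 0}.Finite := fun f h =>
      (h.image e).subset fun v hv => ⟨e.symm v, hv, rfl⟩
    have key : ∀ (E : Type u) [Field E] (ι : k →+* E),
        ((∃ (r : ℕ) (_ : Fact r.Prime), Nonempty (ℚ_[r] →+* E)) ∨ Nonempty (ℝ →+* E)) →
        Nonempty (Point a (∏ i, ∏ g ∈ G i, g) n ι) := by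
      intro E _ ι hE
      let _ : Algebra k E := ι.toAlgebra
      obtain ⟨x, hx⟩ := Pool.Agent.K3h48.MN.final_local hG hθ' G hGf' hne (L := E) hE
      refine ⟨.affine x 0 ?_⟩
      rw [zero_pow hn.ne', mul_zero]
      exact hx.symm
    have hfinite : ∀ v : FinitePlace L, Nonempty (Point a (∏ i, ∏ g ∈ G i, g) n
        ((embedding v).comp (algebraMap k L))) := fun v => key _ _ (Or.inl ⟨v.prime, v.fact,
      ⟨algebraMap ℚ_[v.prime] (LocalAlgebra v.prime L ⧸ v.ideal)⟩⟩)
    have hreal : ∀ v : MaximalSpectrum (RealAlgebra L), Nonempty (Point a (∏ i, ∏ g ∈ G i, g) n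
        ((realEmbedding v).comp (algebraMap k L))) := fun v => key _ _ (Or.inr
      ⟨(Ideal.Quotient.mk v.asIdeal).comp
        (Algebra.TensorProduct.includeLeft : ℝ →ₐ[ℚ] ℝ ⊗[ℚ] L).toRingHom⟩)
    -- points as cycles
    have hcyc : ∀ (d : ℤ) (F : Type u) [Field F] (ι : k →+* F),
        Nonempty (Point a (∏ i, ∏ g ∈ G i, g) n ι) →
        ∃ (P : FinitePoint a (∏ i, ∏ g ∈ G i, g) n ι),
          degree (Finsupp.single P d) = d := by
      intro d F _ ι ⟨P⟩
      refine ⟨⟨F, inferInstance, Algebra.id F, inferInstance, P⟩, ?_⟩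
      rw [degree, Finsupp.sum_single_index (by rw [zero_mul])]
      change d * (Module.finrank F F : ℤ) = d
      rw [Module.finrank_self, Nat.cast_one, mul_one]
    have hexist : ∀ d : ℤ, ∃ Z : AdelicCycle a (∏ i, ∏ g ∈ G i, g) n L, HasDegree Z d ∧
        ∀ v, ∃ P, Z.finite v = Finsupp.single P d := by
      intro d
      choose P hP using fun v => hcyc d _ _ (hfinite v)
      choose Q hQ using fun v => hcyc d _ _ (hreal v)
      exact ⟨⟨fun v => Finsupp.single (P v) d, fun v => Finsupp.single (Q v) d⟩,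
        ⟨fun v => hP v, fun v => hQ v⟩, fun v => ⟨P v, rfl⟩⟩
    -- the local invariants
    have hpt : ∀ (m : ZMod ℓ), m ≠ 0 →
        ∀ (x : (Σ r : Nat.Primes, Pool.Agent.K3h48.BM.Place ℚ_[(r : ℕ)] L))
          (P : FinitePoint a (∏ i, ∏ g ∈ G i, g) n ((embedding (e x)).comp (algebraMap k L))),
          invariantAt χ G (some (-m)) (e x) P =
          (Module.finrank (Completion (e x)) P.extension : ZMod ℓ) *
          ((((Algebra.norm ℚ_[(x.1 : ℕ)] (Pool.Agent.K3h48.BM.emb x.2
            (algebraMap k L a))).valuation : ℤ) : ZMod ℓ) *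
            Pool.Agent.K3h48.MN.wt χ ψ m x.1) := by
      rintro m hm x ⟨E, hE1, hE2, hE3, P⟩
      let _ : Algebra (Pool.Agent.K3h48.BM.Comp x.2) E := hE2
      have : FiniteDimensional (Pool.Agent.K3h48.BM.Comp x.2) E := hE3
      cases P with
      | affine y z h =>
        exact Pool.Agent.K3h48.BM.affine_tower (r := (x.1 : ℕ))
          (F := Pool.Agent.K3h48.BM.Comp x.2) (E := E) hG hθ'
          ha' hGf' hℓn ((Pool.Agent.K3h48.BM.emb x.2).comp (algebraMap k L)) h hm
      | infinite z h =>
        refine Pool.Agent.K3h48.BM.infinite_tower (r := (x.1 : ℕ))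
          (F := Pool.Agent.K3h48.BM.Comp x.2) (E := E) hG
          hθ' ha0 (n := Nat.gcd n (∏ i, ∏ g ∈ G i, g : k[X]).natDegree) (Nat.dvd_gcd hℓn ?_)
          ((Pool.Agent.K3h48.BM.emb x.2).comp (algebraMap k L)) h hm
        rw [hdeg]
        exact dvd_mul_right _ _
    have hloc : ∀ (Z : AdelicCycle a (∏ i, ∏ g ∈ G i, g) n L) (d : ℤ), HasDegreeMod ℓ Z d →
        ∀ (m : ZMod ℓ), m ≠ 0 →
        ∀ x : (Σ r : Nat.Primes, Pool.Agent.K3h48.BM.Place ℚ_[(r : ℕ)] L),
          localTerm χ G (some (-m)) Z (e x) = d *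
          ((((Algebra.norm ℚ_[(x.1 : ℕ)] (Pool.Agent.K3h48.BM.emb x.2
            (algebraMap k L a))).valuation : ℤ) : ZMod ℓ) *
            Pool.Agent.K3h48.MN.wt χ ψ m x.1) := by
      intro Z d hZ m hm x
      have h1 : ((degree (Z.finite (e x)) : ℤ) : ZMod ℓ) = (d : ZMod ℓ) := by
        have h2 := hZ (e x)
        rw [← ZMod.intCast_zmod_eq_zero_iff_dvd, Int.cast_sub, sub_eq_zero] at h2
        exact h2
      rw [← h1, localTerm, degree, Finsupp.sum, Finsupp.sum, Int.cast_sum, Finset.sum_mul]
      refine Finset.sum_congr rfl fun P _ => ?_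
      rw [hpt m hm x P]
      push_cast
      ring
    have hfin : ∀ (d : ℤ) (m : ZMod ℓ),
        {v : Σ r : Nat.Primes, Pool.Agent.K3h48.BM.Place ℚ_[(r : ℕ)] L | (d : ZMod ℓ) *
        ((((Algebra.norm ℚ_[(v.1 : ℕ)] (Pool.Agent.K3h48.BM.emb v.2
            (algebraMap k L a))).valuation : ℤ) : ZMod ℓ) *
            Pool.Agent.K3h48.MN.wt χ ψ m v.1) ≠ 0}.Finite := fun d m =>
      Pool.Agent.K3h48.BM.finite_places (p := p) _ haL fun v _ hv => by
        rw [hv, Int.cast_zero, zero_mul, mul_zero]
    have hfin' : ∀ (m : ZMod ℓ),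
        {v : Σ r : Nat.Primes, Pool.Agent.K3h48.BM.Place ℚ_[(r : ℕ)] L |
        (((Algebra.norm ℚ_[(v.1 : ℕ)] (Pool.Agent.K3h48.BM.emb v.2
            (algebraMap k L a))).valuation : ℤ) : ZMod ℓ) *
            Pool.Agent.K3h48.MN.wt χ ψ m v.1 ≠ 0}.Finite := fun m =>
      Pool.Agent.K3h48.BM.finite_places (p := p) _ haL fun v _ hv => by
        rw [hv, Int.cast_zero, zero_mul]
    have hsum : ∀ (Z : AdelicCycle a (∏ i, ∏ g ∈ G i, g) n L) (d : ℤ), HasDegreeMod ℓ Z d →
        ∀ (m : ZMod ℓ), m ≠ 0 →
        pairing χ G (some (-m)) Z =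
          d * Module.finrank k L * invariant χ ψ m (Algebra.norm ℚ a) := by
      intro Z d hZ m hm
      have h1 := Pool.Agent.K3h48.BM.sum_places (Pool.Agent.K3h48.MN.wt χ ψ m) haL
      have h2 : Algebra.norm ℚ (algebraMap k L a) = Algebra.norm ℚ a ^ Module.finrank k L := by
        rw [← Algebra.norm_norm (R := ℚ) (S := k), Algebra.norm_algebraMap, map_pow]
      rw [h2, Pool.Agent.K3h48.MN.ssum_pow _ (Algebra.norm_ne_zero_iff.2 ha0)] at h1
      rw [mul_assoc]
      refine Eq.trans ?_ (congrArg (fun y : ZMod ℓ => (d : ZMod ℓ) * y) h1)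
      rw [pairing, ← finsum_comp_equiv e]
      refine (finsum_congr fun v => hloc Z d hZ m hm v).trans ?_
      rw [← mul_finsum' _ _ (hfin' m)]
      exact congrArg (fun y : ZMod ℓ => (d : ZMod ℓ) * y)
        (Pool.Agent.K3h48.BM.finsum_sigma (hfin' m))
    refine ⟨hfinite, fun d => ?_, ?_, ?_⟩
    · obtain ⟨Z, hZ, -⟩ := hexist d
      exact ⟨Z, hZ⟩
    · intro Z d hZ m hm
      refine ⟨hpull _ ((hfin d m).subset fun v hv => ?_), hsum Z d hZ m hm⟩
      have h1 := hloc Z d hZ m hm v
      exact fun h2 => hv (h1.trans h2)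
    · intro hL d
      have hmod : ∀ Z : AdelicCycle a (∏ i, ∏ g ∈ G i, g) n L, HasDegree Z d →
          HasDegreeMod ℓ Z d := by
        intro Z hZ v
        rw [hZ.1 v, sub_self]
        exact dvd_zero _
      have horth : (ℓ : ℤ) ∣ d → ∃ Z : AdelicCycle a (∏ i, ∏ g ∈ G i, g) n L, HasDegree Z d ∧
          Orthogonal χ G Z := by
        intro hd
        obtain ⟨Z, hZ, -⟩ := hexist d
        refine ⟨Z, hZ, fun m hm => ?_⟩
        rw [hsum Z d (hmod Z hZ) m hm, (ZMod.intCast_zmod_eq_zero_iff_dvd _ _).2 hd, zero_mul,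
          zero_mul]
      have hdvd : ∀ Z : AdelicCycle a (∏ i, ∏ g ∈ G i, g) n L, HasDegreeMod ℓ Z d →
          Orthogonal χ G Z → (ℓ : ℤ) ∣ d := by
        intro Z hZ hO
        obtain ⟨m, hm, ham⟩ := ha
        have h1 := hsum Z d hZ m hm
        rw [hO m hm] at h1
        have h2 : ((Module.finrank k L : ℕ) : ZMod ℓ) ≠ 0 := by
          rwa [Ne, ZMod.natCast_eq_zero_iff]
        rw [← ZMod.intCast_zmod_eq_zero_iff_dvd]
        rcases mul_eq_zero.1 h1.symm with h3 | h3
        · exact (mul_eq_zero.1 h3).resolve_right h2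
        · exact absurd h3 ham
      refine ⟨⟨?_, ?_⟩, ⟨?_, horth⟩, ⟨?_, ?_⟩⟩
      · rintro ⟨z, rfl⟩
        rw [degree, Finsupp.sum]
        refine Finset.dvd_sum fun P _ => Dvd.dvd.mul_left ?_ _
        rw [Int.natCast_dvd_natCast]
        by_contra hP
        obtain ⟨E, hE1, hE2, hE3, P⟩ := P
        change ¬ ℓ ∣ Module.finrank L E at hP
        have hE4 : NumberField E := NumberField.of_module_finite L E
        let _ : Algebra k E := ((algebraMap L E).comp (algebraMap k L)).toAlgebra
        have hst : IsScalarTower k L E := IsScalarTower.of_algebraMap_eq' rfl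
        have hkL : FiniteDimensional k L := Module.Finite.of_restrictScalars_finite ℚ k L
        have hkE : ¬ ℓ ∣ Module.finrank k E := by
          rw [← Module.finrank_mul_finrank k L E, hℓ.dvd_mul, not_or]
          exact ⟨hL, hP⟩
        cases P with
        | affine x y h =>
          refine Pool.Agent.K3h48.MN.ext_no_points hG hθ' ha' G hGf' hℓn hkE x y ?_
          rw [eval_map]
          exact h
        | infinite z h =>
          obtain ⟨c, hc⟩ : ℓ ∣ Nat.gcd n (∏ i, ∏ g ∈ G i, g : k[X]).natDegree := by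
            refine Nat.dvd_gcd hℓn ?_
            rw [hdeg]
            exact dvd_mul_right _ _
          refine Pool.Agent.K3h48.MN.final_no_infinity hG hθ' (ha'.ext E hkE) (z ^ c) ?_
          rw [← pow_mul, mul_comm c ℓ, ← hc]
          exact h
      · rintro ⟨c, rfl⟩
        obtain ⟨g, hg⟩ := hne none
        have h1 := Pool.Agent.K3h48.MN.factor_ext hG hθ' ha' L hL (hGf' none g hg)
        have h2 : (g.map (algebraMap k L)).natDegree = ℓ := by
          rw [natDegree_map]
          exact Pool.Agent.K3h48.MN.factor_degree hG hθ' ha' (hGf' none g hg)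
        have h3 : Fact (Irreducible (g.map (algebraMap k L))) := ⟨h1.irreducible⟩
        have h4 : FiniteDimensional L (AdjoinRoot (g.map (algebraMap k L))) :=
          (AdjoinRoot.powerBasis h1.irreducible.ne_zero).finite
        have h5 : Module.finrank L (AdjoinRoot (g.map (algebraMap k L))) = ℓ := by
          rw [(AdjoinRoot.powerBasis h1.irreducible.ne_zero).finrank, AdjoinRoot.powerBasis_dim, h2]
        let P : FinitePoint a (∏ i, ∏ g ∈ G i, g) n (algebraMap k L) :=
          ⟨AdjoinRoot (g.map (algebraMap k L)), inferInstance, inferInstance, h4,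
            .affine (AdjoinRoot.root _) 0 (by
              rw [zero_pow hn.ne', mul_zero, Pool.Agent.K3h48.BM.eval_f]
              symm
              refine Finset.prod_eq_zero (Finset.mem_univ none) (Finset.prod_eq_zero hg ?_)
              rw [← eval₂_map, AdjoinRoot.algebraMap_eq]
              exact AdjoinRoot.eval₂_root _)⟩
        refine ⟨Finsupp.single P c, ?_⟩
        rw [degree, Finsupp.sum_single_index (by rw [zero_mul])]
        change c * (Module.finrank L (AdjoinRoot (g.map (algebraMap k L))) : ℤ) = ℓ * c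
        rw [h5, mul_comm]
      · rintro ⟨Z, hZ, hO⟩
        exact hdvd Z (hmod Z hZ) hO
      · rintro ⟨Z, hZ, hO⟩
        exact hdvd Z hZ hO
      · intro hd
        obtain ⟨Z, hZ, hO⟩ := horth hd
        exact ⟨Z, hmod Z hZ, hO⟩
  · intro ℓ _ B
    have hℓ : ℓ.Prime := Fact.out
    obtain ⟨p, hp, hBp, hp1⟩ := Nat.exists_prime_gt_modEq_one (k := 2 * ℓ) B
      (mul_ne_zero two_ne_zero hℓ.ne_zero)
    obtain ⟨q, hq, hqB, hq1, hqp, hpow⟩ := Pool.Agent.K3h48.MN.exists_q hℓ.pos hp (max B p)
    have : Fact p.Prime := ⟨hp⟩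
    have : Fact q.Prime := ⟨hq⟩
    have hd : ∀ r : ℕ, r.Prime → r ≡ 1 [MOD 2 * ℓ] → 2 * ℓ ∣ r - 1 := fun r hr h =>
      (Nat.modEq_iff_dvd' hr.one_lt.le).1 h.symm
    obtain ⟨χ, hχ⟩ := Pool.Agent.K3h48.MN.exists_char (ℓ := ℓ) (p := p)
      ((Dvd.intro_left 2 rfl).trans (hd p hp hp1))
    obtain ⟨ψ, hψ⟩ := Pool.Agent.K3h48.MN.exists_char (ℓ := ℓ) (p := q)
      ((Dvd.intro_left 2 rfl).trans (hd q hq hq1))
    have hBq : B < q := lt_of_le_of_lt (le_max_left _ _) hqB
    have hpq : p < q := lt_of_le_of_lt (le_max_right _ _) hqB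
    refine ⟨p, q, ⟨hp⟩, ⟨hq⟩, χ, ψ, hBp, hBq, hpq.ne, hχ, hψ, ⟨1, ?_⟩, hpow,
      Pool.Agent.K3h48.MN.neg_one_pow hℓ.pos (hd p hp hp1),
      Pool.Agent.K3h48.MN.neg_one_pow hℓ.pos (hd q hq hq1)⟩
    rw [one_pow, (ZMod.natCast_eq_natCast_iff _ _ _).2 hqp, Nat.cast_one]
  · intro ℓ p q _ _ _ χ ψ hadm
    have hG := hgood ℓ p q χ ψ hadm
    refine ⟨?_, ?_⟩
    · have h1 := fun i : Option (ZMod ℓ) => Pool.Agent.K3h48.MN.exists_gen χ ψ
        (coefficients i).1 (coefficients i).2
      choose θ hθ using h1
      exact ⟨θ, hθ⟩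
    · intro k _ _
      refine ⟨?_, fun h => Pool.Agent.K3h48.MN.obs_density hG h⟩
      intro θ a hθ ha i j
      have hθ' : ∀ i, Pool.Agent.K3h48.MN.GenBy χ ψ (Pool.Agent.K3h48.MN.cs i).1
          (Pool.Agent.K3h48.MN.cs i).2 (θ i) := by
        intro i
        cases i with
        | none => exact hθ none
        | some j => exact hθ (some j)
      have ha' : Pool.Agent.K3h48.MN.Obs χ ψ a := ha
      have h1 := Pool.Agent.K3h48.MN.translate hG hθ' ha' i j
      exact ⟨h1.monic, h1.irreducible, h1.not_linear, h1.root⟩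

end Pool.Agent.Results.MP_bd895b_nt.ZeroCyclesOnSuperelliptic
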